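import Pool.Agent.Helper495.Res.Small

set_option autoImplicit false

namespace Pool.Agent.Results.MP_611426_al.SmallSubgroup

open Cardinal Ordinal H495R Pool.Agent.Helper495.Res

universe u

theorem aux (G : Type u) [Group G] [TopologicalSpace G] [IsTopologicalGroup G] (H : Subgroup G)
    (h : NoRes H → ∃ K : Subgroup H, IsOpen (K : Set H) ∧ (K : Set H).Countable ∧
      ∀ x ∈ K, x * x = 1)
    (hnd : ¬ DiscreteTopology H)
    (hirr : ∀ A B : Set G, Dense A → Dense B → (A ∩ B).Nonempty) :
    ∃ K : Subgroup G, K ≤ H ∧ IsOpen {h : H | (h : G) ∈ K} ∧ (K : Set G).Countable ∧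
      (K : Set G).Infinite ∧ ∀ x ∈ K, x * x = 1 := by
  have hG : NoRes G := by
    rintro ⟨A, hA, hA'⟩
    obtain ⟨x, hx1, hx2⟩ := hirr A Aᶜ hA hA'
    exact hx2 hx1
  have hT2 : T2Space G := T2_of_NoRes hG
  have hHres : NoRes H := fun h => hG (res_of_subgroup H h)
  obtain ⟨K, hK, hKc, hK2⟩ := h hHres
  have hKi := infinite_of_open hnd K hK
  have himg : ((K.map H.subtype : Subgroup G) : Set G) = Subtype.val '' (K : Set H) := by simp
  refine ⟨K.map H.subtype, ?_, ?_, ?_, ?_, ?_⟩
  · rintro _ ⟨k, _, rfl⟩
    exact k.2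
  · convert hK using 1
    ext h
    simp
  · rw [himg]; exact hKc.image _
  · rw [himg]; exact hKi.image Subtype.val_injective.injOn
  · rintro _ ⟨k, hk, rfl⟩
    have := hK2 k hk
    exact congrArg Subtype.val this

/-- Let `G` be an irresolvable topological group and `H` a non-discrete subgroup (for instance
`H = G`) whose dispersion character is countable or regular and not a strong limit, or which belongs
to the class `TameW`. Then `G` has an infinite subgroup of exponent two; it can be chosen countable,
contained in `H` and open in `H`. -/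
theorem result :
    (∀ (G : Type u) [Group G] [TopologicalSpace G] [IsTopologicalGroup G] (H : Subgroup G),
      (dispersion H ≤ ℵ₀ ∨ (dispersion H).IsRegular ∧
        ∃ μ, μ < dispersion H ∧ dispersion H ≤ 2 ^ μ) →
      ¬ DiscreteTopology H →
      (∀ A B : Set G, Dense A → Dense B → (A ∩ B).Nonempty) →
      ∃ K : Subgroup G, K ≤ H ∧ IsOpen {h : H | (h : G) ∈ K} ∧ (K : Set G).Countable ∧
        (K : Set G).Infinite ∧ ∀ x ∈ K, x * x = 1) ∧
    (∀ (G : Type) [Group G] [TopologicalSpace G] [IsTopologicalGroup G] (H : Subgroup G),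
      TameW H → ¬ DiscreteTopology H →
      (∀ A B : Set G, Dense A → Dense B → (A ∩ B).Nonempty) →
      ∃ K : Subgroup G, K ≤ H ∧ IsOpen {h : H | (h : G) ∈ K} ∧ (K : Set G).Countable ∧
        (K : Set G).Infinite ∧ ∀ x ∈ K, x * x = 1) := by
  constructor
  · intro G _ _ _ H h hnd hirr
    exact aux G H (fun hH => boolean_of_nhds (countable_nhds_of_dispersion H h hH) hH) hnd hirr
  · intro G _ _ _ H h hnd hirr
    exact aux G H (fun hH => open_countable_boolean (good_of_tameW H h) hH) hnd hirr

/-- Every irresolvable topological group that has a non-discrete subgroup of cardinality less than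
`ℵ_ω` has an infinite subgroup of exponent two. -/
theorem aleph_omega (G : Type) [Group G] [TopologicalSpace G] [IsTopologicalGroup G]
    (H : Subgroup G) (hH : #H < ℵ_ ω) (hnd : ¬ DiscreteTopology H)
    (hirr : ∀ A B : Set G, Dense A → Dense B → (A ∩ B).Nonempty) :
    ∃ K : Subgroup G, (K : Set G).Infinite ∧ ∀ x ∈ K, x * x = 1 := by
  obtain ⟨K, -, -, -, h1, h2⟩ := result.{0}.2 G H (TameW.small H hH) hnd hirr
  exact ⟨K, h1, h2⟩

end Pool.Agent.Results.MP_611426_al.SmallSubgroup
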