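import Mathlib
import Pool.Agent.Helper473.Struct

set_option autoImplicit false

namespace Pool.Agent.Results.MP_611426_al.TameSubgroup

open H473

/-- Let `G` be an irresolvable topological group that has a non-discrete subgroup `H` in the class
`Tame`. Then `G` has an infinite subgroup of exponent two (it can be chosen countable and open in
`H`). -/
theorem result :
    ∀ (G : Type) [Group G] [TopologicalSpace G] [IsTopologicalGroup G] (H : Subgroup G), Tame H →
      ¬ DiscreteTopology H →
      (∀ A B : Set G, Dense A → Dense B → (A ∩ B).Nonempty) →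
      ∃ K : Subgroup G, K ≤ H ∧ IsOpen {h : H | (h : G) ∈ K} ∧ (K : Set G).Countable ∧
        (K : Set G).Infinite ∧ ∀ x ∈ K, x * x = 1 := by
  intro G _ _ _ H hH hnd hirr
  have hG : NoRes G := by
    rintro ⟨A, hA, hA'⟩
    obtain ⟨x, hx1, hx2⟩ := hirr A Aᶜ hA hA'
    exact hx2 hx1
  have hT2 : T2Space G := T2_of_NoRes hG
  have hHres : NoRes H := fun h => hG (res_of_subgroup H h)
  obtain ⟨K, hK, hKc, hK2⟩ := open_countable_boolean (good_of_tame H hH) hHres
  have hKi := infinite_of_open hnd K hK
  have himg : ((K.map H.subtype : Subgroup G) : Set G) = Subtype.val '' (K : Set H) := by simp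
  refine ⟨K.map H.subtype, ?_, ?_, ?_, ?_, ?_⟩
  · rintro _ ⟨k, _, rfl⟩
    exact k.2
  · convert hK using 1
    ext h
    simp
  · rw [himg]; exact hKc.image _
  · rw [himg]; exact hKi.image Subtype.val_injective.injOn
  · rintro _ ⟨k, hk, rfl⟩
    have := hK2 k hk
    exact congrArg Subtype.val this

/-- The question of the problem for every tame group `G`, in particular for all countable, abelian
and solvable groups. -/
theorem tame_group (G : Type) [Group G] [TopologicalSpace G] [IsTopologicalGroup G] (hG : Tame G)
    (hnd : ¬ DiscreteTopology G)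
    (hirr : ∀ A B : Set G, Dense A → Dense B → (A ∩ B).Nonempty) :
    ∃ K : Subgroup G, (K : Set G).Infinite ∧ ∀ x ∈ K, x * x = 1 := by
  have hG' : NoRes G := by
    rintro ⟨A, hA, hA'⟩
    obtain ⟨x, hx1, hx2⟩ := hirr A Aᶜ hA hA'
    exact hx2 hx1
  have hT2 : T2Space G := T2_of_NoRes hG'
  obtain ⟨K, hK, hKc, hK2⟩ := open_countable_boolean (good_of_tame G hG) hG'
  exact ⟨K, infinite_of_open hnd K hK, hK2⟩

/-- Every solvable group is tame. -/
theorem solvable_tame (G : Type) [Group G] [Group.IsSolvable G] : Tame G := tame_of_solvable G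

end Pool.Agent.Results.MP_611426_al.TameSubgroup
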